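import Pool.Agent.Q294.R210.Main
import Pool.Agent.Q294.R210.Alt
import Pool.Agent.Q294.R210.Foster
import Pool.Agent.Q294.R210.Three
import Pool.Agent.Q294.R210.Lower
import Pool.Agent.Q225.R210.Four

/-!
# MP_c6a9e6_pr: the relaxation time of the alpha-asynchronous rule 210 is linear (full answer)

`Q294.R210.f210` is the local map of rule 210 (`true = 1`), `step x c` updates simultaneously the cells
with coin `true`, `traj x ω t` is the configuration at time `t` started from `x` with the coins `ω`,
`PP a n` the law of independent coins with success probability `a` (one for each time and each cell of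
`ZMod n`), `TT x ω` the first time at which `traj x ω t` is a fixed point (`∞` if there is none), and
`RR a n = max_x E TT x` is the relaxation time `R_α(n)`.
-/

set_option autoImplicit false

namespace Pool.Agent.Results.MP_c6a9e6_pr.LinearRelaxation

open Pool.Agent.Q294.R210
open scoped ENNReal

/-- For every `α ∈ (0,1)` the relaxation time `R_α(n)` of rule 210 on the ring with `n ≥ 3` cells is
polynomial, in fact of exact order `n`: `(n - 1)/4 ≤ R_α(n) ≤ K n / (α² (1 - α)³)` with an absolute
constant `K`. -/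
theorem result :
    (∀ a : ℝ, 0 < a → a < 1 → ∃ (C : ℝ) (k : ℕ), ∀ n : ℕ, 3 ≤ n →
      RR a n ≤ ENNReal.ofReal (C * (n : ℝ) ^ k)) ∧
    ∃ K : ℝ, 0 < K ∧ ∀ a : ℝ, 0 < a → a < 1 → ∀ n : ℕ, 3 ≤ n →
      ENNReal.ofReal (((n : ℝ) - 1) / 4) ≤ RR a n ∧
      RR a n ≤ ENNReal.ofReal (K * n / (a ^ 2 * (1 - a) ^ 3)) := by
  have h := main Pool.Agent.Q225.R210.four (alt Pool.Agent.Q225.R210.four) fixed foster
    (three foster) lower
  refine ⟨fun a h0 h1 => ?_, h⟩
  obtain ⟨K, _, hK⟩ := h
  refine ⟨K / (a ^ 2 * (1 - a) ^ 3), 1, fun n hn => ?_⟩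
  have := (hK a h0 h1 n hn).2
  rw [pow_one]
  convert this using 2
  ring

end Pool.Agent.Results.MP_c6a9e6_pr.LinearRelaxation
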